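import Mathlib

namespace Pool.Agent.H.MP_80a07b_an

open Set Filter Topology

theorem recur {Z κ σ : Type} [TopologicalSpace Z] [T2Space Z] [Countable κ] [Finite σ]
    (u : List ℕ → Z → Z) (hu : ∀ l, Continuous (u l)) (h0 : ∀ z, u [] z = z)
    (hm : ∀ l l' z, u (l ++ l') z = u l (u l' z)) (T : Set Z) (hT : IsCompact T) (hn : T.Nonempty)
    (hi : ∀ l, MapsTo (u l) T T) (B : κ → Set Z) (hB : ∀ d, IsClosed (B d)) (hc : T ⊆ ⋃ d, B d)
    (χ : List ℕ → σ) :
    ∃ w ∈ T, ∃ l m n d, m ≠ n ∧ χ (l ++ [m]) = χ (l ++ [n]) ∧ u (l ++ [m]) w ∈ B d ∧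
      u (l ++ [n]) w ∈ B d := by
  obtain ⟨K, hKT, hK⟩ := zorn_superset_nonempty
    {K : Set Z | K.Nonempty ∧ IsCompact K ∧ ∀ l, MapsTo (u l) K K} (fun c hc ch cn => by
      have := cn.to_subtype
      obtain ⟨K, hK⟩ := cn
      refine ⟨⋂₀ c, ⟨IsCompact.nonempty_sInter_of_directed_nonempty_isCompact_isClosed
        (fun a ha b hb => (ch.total ha hb).elim (fun h => ⟨a, ha, subset_rfl, h⟩)
          fun h => ⟨b, hb, h, subset_rfl⟩) (fun U h => (hc h).1) (fun U h => (hc h).2.1)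
        (fun U h => (hc h).2.1.isClosed), (hc hK).2.1.of_isClosed_subset
        (isClosed_sInter fun U h => (hc h).2.1.isClosed) (sInter_subset_of_mem hK),
        fun l z hz U h => (hc h).2.2 l (hz U h)⟩, fun s h => sInter_subset_of_mem h⟩)
    T ⟨hn, hT, hi⟩
  obtain ⟨kn, kc, ki⟩ := hK.1
  have := kn.to_subtype
  have := isCompact_iff_compactSpace.1 kc
  obtain ⟨d, p, hp⟩ := nonempty_interior_of_iUnion_of_closed
    (f := fun d => ((↑) : K → Z) ⁻¹' B d) (fun d => (hB d).preimage continuous_subtype_val)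
    (eq_univ_of_forall fun z => by simpa using hc (hKT z.2))
  obtain ⟨U, hU, e⟩ := isOpen_induced_iff.1 (isOpen_interior (s := ((↑) : K → Z) ⁻¹' B d))
  have hUB : ∀ z ∈ K, z ∈ U → z ∈ B d := fun z hz h =>
    interior_subset (s := ((↑) : K → Z) ⁻¹' B d) (a := ⟨z, hz⟩) (e ▸ h)
  have cov : K ⊆ ⋃ l, u l ⁻¹' U := by
    by_contra h
    obtain ⟨z, hz, hz'⟩ := not_subset.1 h
    have := hK.2 (y := K \ ⋃ l, u l ⁻¹' U) ⟨⟨z, hz, hz'⟩, kc.diff (isOpen_iUnion fun l => hU.preimage (hu l)),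
      fun l y hy => ⟨ki l hy.1, fun h => by
        obtain ⟨l', h⟩ := mem_iUnion.1 h
        exact hy.2 (mem_iUnion.2 ⟨l' ++ l, by rwa [mem_preimage, hm]⟩)⟩⟩ sdiff_subset
    exact (this p.2).2 (mem_iUnion.2 ⟨[], by rw [mem_preimage, h0]; rw [← e] at hp; exact hp⟩)
  obtain ⟨t, ht⟩ := kc.elim_finite_subcover _ (fun l => hU.preimage (hu l)) cov
  obtain ⟨w, hw⟩ := kn
  have : ∀ n : ℕ, ∃ l : t, u (l ++ [n]) w ∈ U := fun n => by
    obtain ⟨l, hl, h⟩ := mem_iUnion₂.1 (ht (ki [n] hw))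
    exact ⟨⟨l, hl⟩, by rwa [hm]⟩
  choose l hl using this
  obtain ⟨m, n, hmn, e⟩ := Finite.exists_ne_map_eq_of_infinite fun n => (l n, χ (l n ++ [n]))
  obtain ⟨e1, e2⟩ := Prod.ext_iff.1 e
  simp only at e1 e2
  refine ⟨w, hKT hw, l m, m, n, d, hmn, by rw [e2, e1], hUB _ (ki _ hw) (hl m), hUB _ (ki _ hw) ?_⟩
  rw [e1]; exact hl n

variable {𝕜 X : Type} [RCLike 𝕜] [NormedAddCommGroup X] [NormedSpace 𝕜 X]

theorem finrank_rep (F : X →L[𝕜] X) (s : Finset X) (h : ∀ x, F x ∈ Submodule.span 𝕜 (s : Set X)) :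
    ∃ N : ((X →L[𝕜] 𝕜) → 𝕜) → X, Continuous N ∧ ∀ x, N (fun f => f x) = F x := by
  let W := Submodule.span 𝕜 (s : Set X)
  let b := Module.finBasis 𝕜 W
  refine ⟨fun w => ∑ j, w ((b.coord j).toContinuousLinearMap ∘L F.codRestrict W h) • (b j : X),
    by fun_prop, fun x => ?_⟩
  have := congrArg W.subtype (b.sum_repr (F.codRestrict W h x))
  rw [map_sum] at this
  exact this

theorem mem_clos (S : Set X) (x : X) (h : ∀ f : X →L[𝕜] 𝕜, (∀ y ∈ S, f y = 0) → f x = 0) :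
    x ∈ closure (Submodule.span 𝕜 S : Set X) := by
  by_contra hx
  let W := (Submodule.span 𝕜 S).topologicalClosure
  have : IsClosed (W : Set X) := isClosed_closure
  obtain ⟨f, hf⟩ := SeparatingDual.exists_ne_zero (R := 𝕜) (x := W.mkQ x)
    fun e => hx ((Submodule.Quotient.mk_eq_zero W).1 e)
  refine hf (h (f ∘L W.mkQL) fun y hy => ?_)
  have : W.mkQL y = 0 := (Submodule.Quotient.mk_eq_zero W).2
    (Submodule.le_topologicalClosure _ (Submodule.subset_span hy))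
  simp [this]

theorem main (hr : ∀ φ : (X →L[𝕜] 𝕜) →L[𝕜] 𝕜, ∃ x : X, ∀ f : X →L[𝕜] 𝕜, φ f = f x)
    (G : Subgroup (X →L[𝕜] X)ˣ) (C : ℝ) (hC : ∀ g ∈ G, ‖g.val‖ ≤ C)
    (hF : ∀ g ∈ G, ∃ c : 𝕜, ‖c‖ = 1 ∧ ∃ s : Finset X, ∀ x : X,
      g.val x - c • x ∈ Submodule.span 𝕜 (s : Set X))
    (s : Finset X) (ε : ℝ) (hε : 0 < ε) (hd : ∀ h ∈ G, (∀ x ∈ s, ‖h.val x - x‖ < ε) → h = 1) :
    (G : Set (X →L[𝕜] X)ˣ).Finite := by
  by_contra hG
  let e := Set.Infinite.natEmbedding _ hG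
  let v : List ℕ → G := fun l => (l.map fun n => (e n : G)).prod
  have vm : ∀ l l', v (l ++ l') = v l * v l' := fun l l' => by simp [v]
  let Φ : (s → X) → s × (X →L[𝕜] 𝕜) → 𝕜 := fun z p => p.2 (z p.1)
  let u : List ℕ → (s × (X →L[𝕜] 𝕜) → 𝕜) → s × (X →L[𝕜] 𝕜) → 𝕜 :=
    fun l w p => w (p.1, p.2 ∘L (v l).1.val)
  let o : List ℕ → s → X := fun l i => (v l).1.val i
  let T := closure (range fun l => Φ (o l))
  obtain ⟨C, C0, hC⟩ : ∃ C : ℝ, 0 < C ∧ ∀ g ∈ G, ‖g.val‖ ≤ C :=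
    ⟨|C| + 1, by positivity, fun g hg => by linarith [hC g hg, le_abs_self C]⟩
  let R := C * ‖fun i : s => (i : X)‖
  have R0 : 0 ≤ R := by positivity
  have oR : ∀ l i, ‖o l i‖ ≤ R := fun l i => ((v l).1.val.le_opNorm _).trans
    (mul_le_mul (hC _ (v l).2) (norm_le_pi_norm (fun i : s => (i : X)) i) (norm_nonneg _) C0.le)
  have cl : ∀ (P : Set (s × (X →L[𝕜] 𝕜) → 𝕜)), IsClosed P → (∀ l, Φ (o l) ∈ P) → ∀ w ∈ T, w ∈ P :=
    fun P hP h => closure_minimal (range_subset_iff.2 h) hP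
  have bd : ∀ w ∈ T, ∀ p, ‖w p‖ ≤ R * ‖p.2‖ := fun w hw p =>
    cl {w | ‖w p‖ ≤ R * ‖p.2‖} (isClosed_le (by fun_prop) continuous_const) (fun l =>
      (p.2.le_opNorm _).trans (by rw [mul_comm]; gcongr; exact oR l _)) w hw
  have Tc : IsCompact T := (isCompact_univ_pi fun p : s × (X →L[𝕜] 𝕜) =>
    isCompact_closedBall (0 : 𝕜) (R * ‖p.2‖)).of_isClosed_subset isClosed_closure
      fun w hw p _ => by simpa using bd w hw p
  have rep : ∀ w ∈ T, ∃ z : s → X, w = Φ z ∧ ‖z‖ ≤ R ∧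
      ∀ i, z i ∈ closure (Submodule.span 𝕜 (range fun q : List ℕ × s => o q.1 q.2) : Set X) :=
    fun w hw => by
      have : ∀ i, ∃ x : X, ∀ f, w (i, f) = f x := fun i =>
        hr (LinearMap.mkContinuous ⟨⟨fun f => w (i, f), fun f g =>
          cl {w | w (i, f + g) = w (i, f) + w (i, g)} (isClosed_eq (by fun_prop) (by fun_prop))
            (fun l => rfl) w hw⟩, fun c f =>
          cl {w | w (i, c • f) = c • w (i, f)} (isClosed_eq (by fun_prop) (by fun_prop))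
            (fun l => rfl) w hw⟩ R fun f => bd w hw (i, f))
      choose z hz using this
      refine ⟨z, funext fun p => hz p.1 p.2, (pi_norm_le_iff_of_nonneg R0).2 fun i =>
        NormedSpace.norm_le_dual_bound 𝕜 _ R0 fun f => hz i f ▸ bd w hw (i, f), fun i =>
        mem_clos _ _ fun f hf => hz i f ▸ cl {w | w (i, f) = 0}
          (isClosed_eq (by fun_prop) continuous_const) (fun l => hf _ ⟨(l, i), rfl⟩) w hw⟩
  obtain ⟨D, Dc, hD⟩ := ((countable_range fun q : List ℕ × s => o q.1 q.2).isSeparable.span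
    (R := 𝕜)).closure
  have := Dc.to_subtype
  let δ := ε / C / (4 * R + 3)
  have δ0 : 0 < δ := by positivity
  choose c c1 S hS using fun g : G => hF g g.2
  obtain ⟨t, tf, ht⟩ := Metric.totallyBounded_iff.1
    (isCompact_closedBall (0 : 𝕜) 1).totallyBounded δ δ0
  have := tf.to_subtype
  have : ∀ l, ∃ a : t, ‖c (v l) - a‖ < δ := fun l => by
    obtain ⟨a, ha, h⟩ := mem_iUnion₂.1 (ht (show c (v l) ∈ _ by simp [c1]))
    exact ⟨⟨a, ha⟩, by rwa [← dist_eq_norm]⟩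
  choose χ hχ using this
  have uΦ : ∀ l z, u l (Φ z) = Φ fun i => (v l).1.val (z i) := fun l z => rfl
  obtain ⟨w, hw, l, m, n, d, hmn, hχ', h1, h2⟩ := recur u (fun l => by fun_prop)
    (fun w => by simp [u, v, ContinuousLinearMap.one_def])
    (fun l l' w => by funext p; simp only [u, vm]; rfl) T Tc
    ⟨_, subset_closure ⟨[], rfl⟩⟩ (fun l => MapsTo.closure (by
      rintro _ ⟨l', rfl⟩; exact ⟨l ++ l', by simp only [o, vm]; rfl⟩) (by fun_prop))
    (fun d : s → D => {w | ∀ p, ‖w p - p.2 (d p.1)‖ ≤ δ * ‖p.2‖})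
    (fun d => by
      simp only [ofPred_forall]
      exact isClosed_iInter fun p => isClosed_le (by fun_prop) continuous_const)
    (fun w hw => by
      obtain ⟨z, rfl, -, hz⟩ := rep w hw
      choose d hd h using fun i => Metric.mem_closure_iff.1 (hD (hz i)) δ δ0
      refine mem_iUnion.2 ⟨fun i => ⟨d i, hd i⟩, fun p => ?_⟩
      rw [show Φ z p - p.2 (d p.1) = p.2 (z p.1 - d p.1) from (map_sub _ _ _).symm, mul_comm]
      refine (p.2.le_opNorm _).trans ?_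
      gcongr
      rw [← dist_eq_norm]; exact (h _).le) χ
  set a := v (l ++ [m])
  set b := v (l ++ [n])
  have ab : a ≠ b := fun h => hmn (e.injective (by simpa [a, b, vm, v] using h))
  have cab : ‖c a - c b‖ ≤ 2 * δ := by
    have := norm_sub_le_norm_sub_add_norm_sub (c a) (χ (l ++ [m])) (c b)
    have h3 := hχ (l ++ [n])
    rw [← hχ', norm_sub_rev] at h3
    linarith [hχ (l ++ [m])]
  obtain ⟨Na, a1, a2⟩ := finrank_rep (a.1.val - c a • 1) (S a) (hS a)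
  obtain ⟨Nb, b1, b2⟩ := finrank_rep (b.1.val - c b • 1) (S b) (hS b)
  have key : ∀ z : s → X, ‖z‖ ≤ R → |‖fun i => a.1.val (z i) - b.1.val (z i)‖ -
      ‖fun i => Na (fun f => Φ z (i, f)) - Nb (fun f => Φ z (i, f))‖| ≤ 2 * δ * R := fun z hz => by
    refine (abs_norm_sub_norm_le _ _).trans ((pi_norm_le_iff_of_nonneg (by positivity)).2 fun i => ?_)
    have : a.1.val (z i) - b.1.val (z i) - (Na (fun f => f (z i)) - Nb (fun f => f (z i))) =
        (c a - c b) • z i := by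
      rw [a2, b2]; simp [sub_smul]; abel
    refine (congrArg norm this).trans_le ?_
    rw [norm_smul]
    gcongr
    exact (norm_le_pi_norm z i).trans hz
  have low := cl {w | ε / C - 2 * δ * R ≤ ‖fun i => Na (fun f => w (i, f)) - Nb (fun f => w (i, f))‖}
    (isClosed_le continuous_const (by fun_prop)) (fun l' => by
      have k1 := key (o l') ((pi_norm_le_iff_of_nonneg R0).2 (oR l'))
      suffices ε / C ≤ ‖fun i => a.1.val (o l' i) - b.1.val (o l' i)‖ by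
        simp only [mem_ofPred_eq]; linarith [(abs_le.1 k1).2]
      by_contra! hlt
      refine ab (mul_right_cancel (b := v l') (inv_mul_eq_one.1 (Subtype.ext (hd _
        ((b * v l')⁻¹ * (a * v l')).2 fun x hx => ?_))).symm)
      have e1 : (((b * v l')⁻¹ * (a * v l') : G) : (X →L[𝕜] X)ˣ).val x - x = ((b * v l')⁻¹ : G).1.val
          (a.1.val (o l' ⟨x, hx⟩) - b.1.val (o l' ⟨x, hx⟩)) := by
        rw [map_sub]
        congr 1
        exact (congrArg (fun g : G => g.1.val x) (inv_mul_cancel (b * v l'))).symm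
      rw [e1]
      refine (ContinuousLinearMap.le_opNorm _ _).trans_lt ?_
      refine (mul_le_mul_of_nonneg_right (hC _ (Subtype.prop _)) (norm_nonneg _)).trans_lt ?_
      rw [mul_comm, ← lt_div_iff₀ C0]
      exact (norm_le_pi_norm (fun i => a.1.val (o l' i) - b.1.val (o l' i)) _).trans_lt hlt) w hw
  obtain ⟨z, rfl, hz, -⟩ := rep w hw
  have nr : ∀ g : G, (∀ p : s × (X →L[𝕜] 𝕜), ‖p.2 (g.1.val (z p.1)) - p.2 (d p.1)‖ ≤ δ * ‖p.2‖) →
      ∀ i, ‖g.1.val (z i) - d i‖ ≤ δ := fun g h i =>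
    NormedSpace.norm_le_dual_bound 𝕜 _ δ0.le fun f => by rw [map_sub]; exact h (i, f)
  have up : ‖fun i => a.1.val (z i) - b.1.val (z i)‖ ≤ 2 * δ :=
    (pi_norm_le_iff_of_nonneg (by positivity)).2 fun i => by
      have := norm_sub_le_norm_sub_add_norm_sub (a.1.val (z i)) (d i) (b.1.val (z i))
      have h3 := nr b h2 i
      rw [norm_sub_rev] at h3
      linarith [nr a h1 i]
  have := (abs_le.1 (key z hz)).1
  have e2 : δ * (4 * R + 3) = ε / C := div_mul_cancel₀ _ (by positivity)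
  simp only [mem_ofPred_eq] at low
  nlinarith

end Pool.Agent.H.MP_80a07b_an
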